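import Mathlib

set_option autoImplicit false

namespace Pool.Agent.KS6_18.Eng

/-- The affine group of a commutative ring. -/
@[ext] structure Aff (R : Type) [CommRing R] where
  q : Rˣ
  m : R

variable {R : Type} [CommRing R]

namespace Aff

instance : Mul (Aff R) := ⟨fun x y => ⟨x.q * y.q, x.m + x.q * y.m⟩⟩
instance : One (Aff R) := ⟨⟨1, 0⟩⟩
instance : Inv (Aff R) := ⟨fun x => ⟨x.q⁻¹, -(((x.q⁻¹ : Rˣ) : R) * x.m)⟩⟩

theorem mul_def (x y : Aff R) : x * y = ⟨x.q * y.q, x.m + x.q * y.m⟩ := rfl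
theorem one_def : (1 : Aff R) = ⟨1, 0⟩ := rfl
theorem inv_def (x : Aff R) : x⁻¹ = ⟨x.q⁻¹, -(((x.q⁻¹ : Rˣ) : R) * x.m)⟩ := rfl

instance : Group (Aff R) := Group.ofLeftAxioms
  (fun x y z => by
    ext
    · simp only [mul_def, mul_assoc]
    · simp only [mul_def, Units.val_mul]; ring)
  (fun x => by ext <;> simp [mul_def, one_def])
  (fun x => by ext <;> simp [mul_def, one_def, inv_def])

/-- the basic commutator -/
theorem comm (x y : Aff R) : x⁻¹ * y⁻¹ * x * y =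
    ⟨1, ((x.q⁻¹ : Rˣ) : R) * ((y.q⁻¹ : Rˣ) : R) *
      (((x.q : R) - 1) * y.m - ((y.q : R) - 1) * x.m)⟩ := by
  have h1 : ((x.q⁻¹ : Rˣ) : R) * (x.q : R) = 1 := by simp
  have h2 : ((y.q⁻¹ : Rˣ) : R) * (y.q : R) = 1 := by simp
  ext
  · simp only [mul_def, inv_def]
    have : x.q⁻¹ * y.q⁻¹ * x.q * y.q = 1 := by
      rw [mul_comm (x.q⁻¹) (y.q⁻¹), mul_assoc (y.q⁻¹), inv_mul_cancel, mul_one, inv_mul_cancel]
    rw [this]
  · simp only [mul_def, inv_def, Units.val_mul]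
    linear_combination (0 : R) * h1 +
      (((x.q⁻¹ : Rˣ) : R) * x.m) * h2

/-- the Engel commutators -/
theorem eng_succ (n : ℕ) (x y : Aff R) : (fun z => z⁻¹ * y⁻¹ * z * y)^[n + 1] x =
    ⟨1, (-((y.q⁻¹ : Rˣ) : R) * ((y.q : R) - 1)) ^ n * (((x.q⁻¹ : Rˣ) : R) * ((y.q⁻¹ : Rˣ) : R) *
      (((x.q : R) - 1) * y.m - ((y.q : R) - 1) * x.m))⟩ := by
  induction n with
  | zero => rw [Function.iterate_one]; rw [comm]; simp
  | succ n ih =>
    rw [Function.iterate_succ_apply', ih, comm]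
    ext
    · rfl
    · simp only [Units.val_one, inv_one]
      ring

theorem eng_eq_one_iff (n : ℕ) (x y : Aff R) :
    (fun z => z⁻¹ * y⁻¹ * z * y)^[n + 1] x = 1 ↔
      ((y.q : R) - 1) ^ n * (((x.q : R) - 1) * y.m - ((y.q : R) - 1) * x.m) = 0 := by
  rw [eng_succ, one_def, Aff.mk.injEq]
  simp only [true_and]
  have e : (-((y.q⁻¹ : Rˣ) : R) * ((y.q : R) - 1)) ^ n * (((x.q⁻¹ : Rˣ) : R) *
      ((y.q⁻¹ : Rˣ) : R) * (((x.q : R) - 1) * y.m - ((y.q : R) - 1) * x.m)) =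
      (((-y.q⁻¹) ^ n * (x.q⁻¹ * y.q⁻¹) : Rˣ) : R) *
      (((y.q : R) - 1) ^ n * (((x.q : R) - 1) * y.m - ((y.q : R) - 1) * x.m)) := by
    push_cast
    rw [mul_pow]; ring
  rw [e]
  constructor
  · intro h
    exact (Units.mul_right_eq_zero _).1 h
  · intro h
    rw [h, mul_zero]

end Aff

/-- leading terms of an element -/
def P (X Y : R) (x : Aff R) (s r : ℤ) : Prop :=
  ((x.q : R) - 1 - ((s : R) * X + (r : R) * Y)) ∈ (Ideal.span {X, Y}) ^ 2 ∧
    x.m - (r : R) ∈ Ideal.span {X, Y}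

variable {X Y : R}

theorem X_mem : X ∈ Ideal.span {X, Y} := Ideal.subset_span (by simp)
theorem Y_mem : Y ∈ Ideal.span {X, Y} := Ideal.subset_span (by simp)

theorem lin_mem (s r : R) : s * X + r * Y ∈ Ideal.span {X, Y} :=
  Ideal.add_mem _ (Ideal.mul_mem_left _ _ X_mem) (Ideal.mul_mem_left _ _ Y_mem)

theorem P.q_mem {x : Aff R} {s r : ℤ} (h : P X Y x s r) : (x.q : R) - 1 ∈ Ideal.span {X, Y} := by
  have h1 : (x.q : R) - 1 = ((x.q : R) - 1 - ((s : R) * X + (r : R) * Y)) +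
      ((s : R) * X + (r : R) * Y) := by ring
  rw [h1]
  exact Ideal.add_mem _ (Ideal.pow_le_self (by norm_num) h.1) (lin_mem _ _)

theorem P.one : P X Y (1 : Aff R) 0 0 := by
  constructor <;> simp [Aff.one_def]

theorem P.mul {x y : Aff R} {s r s' r' : ℤ} (h : P X Y x s r) (h' : P X Y y s' r') :
    P X Y (x * y) (s + s') (r + r') := by
  have hq := h.q_mem
  have hq' := h'.q_mem
  constructor
  · have h1 : (((x * y).q : Rˣ) : R) - 1 - (((s + s' : ℤ) : R) * X + ((r + r' : ℤ) : R) * Y) =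
        ((x.q : R) - 1) * ((y.q : R) - 1) + ((x.q : R) - 1 - ((s : R) * X + (r : R) * Y)) +
        ((y.q : R) - 1 - ((s' : R) * X + (r' : R) * Y)) := by
      simp only [Aff.mul_def, Units.val_mul]; push_cast; ring
    rw [h1]
    refine Ideal.add_mem _ (Ideal.add_mem _ ?_ h.1) h'.1
    rw [pow_two]
    exact Ideal.mul_mem_mul hq hq'
  · have h1 : (x * y).m - ((r + r' : ℤ) : R) = (x.m - r) + (y.m - r') + y.m * ((x.q : R) - 1) := by
      simp only [Aff.mul_def]; push_cast; ring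
    rw [h1]
    exact Ideal.add_mem _ (Ideal.add_mem _ h.2 h'.2) (Ideal.mul_mem_left _ _ hq)

theorem P.inv {x : Aff R} {s r : ℤ} (h : P X Y x s r) : P X Y x⁻¹ (-s) (-r) := by
  have hq := h.q_mem
  have e : ((x.q⁻¹ : Rˣ) : R) * (x.q : R) = 1 := by simp
  constructor
  · have h1 : ((x⁻¹.q : Rˣ) : R) - 1 - (((-s : ℤ) : R) * X + ((-r : ℤ) : R) * Y) =
        -((x.q : R) - 1 - ((s : R) * X + (r : R) * Y)) +
        ((x.q⁻¹ : Rˣ) : R) * (((x.q : R) - 1) * ((x.q : R) - 1)) := by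
      simp only [Aff.inv_def]; push_cast
      linear_combination (-(x.q : R) + 2) * e
    rw [h1]
    refine Ideal.add_mem _ ((Ideal.neg_mem_iff _).2 h.1) (Ideal.mul_mem_left _ _ ?_)
    rw [pow_two]
    exact Ideal.mul_mem_mul hq hq
  · have h1 : (x⁻¹).m - ((-r : ℤ) : R) = -(x.m - r) +
        (((x.q⁻¹ : Rˣ) : R) * x.m) * ((x.q : R) - 1) := by
      simp only [Aff.inv_def]; push_cast
      linear_combination (-x.m) * e
    rw [h1]
    exact Ideal.add_mem _ ((Ideal.neg_mem_iff _).2 h.2) (Ideal.mul_mem_left _ _ hq)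

/-- powers of the ideal -/
theorem pow_le (hX : X ^ 3 = 0) (n : ℕ) :
    (Ideal.span {X, Y}) ^ (n + 2) ≤ Ideal.span {X ^ 2 * Y ^ n, X * Y ^ (n + 1), Y ^ (n + 2)} := by
  induction n with
  | zero =>
    rw [zero_add, pow_two]
    refine Ideal.mul_le.2 fun a ha b hb => ?_
    obtain ⟨a1, a2, rfl⟩ := Ideal.mem_span_pair.1 ha
    obtain ⟨b1, b2, rfl⟩ := Ideal.mem_span_pair.1 hb
    have : (a1 * X + a2 * Y) * (b1 * X + b2 * Y) = (a1 * b1) * (X ^ 2 * Y ^ 0) +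
        ((a1 * b2 + a2 * b1) * (X * Y ^ (0 + 1)) + (a2 * b2) * Y ^ (0 + 2)) := by ring
    rw [this]
    exact (Ideal.mem_span_insert' _ _ _).2 ⟨-(a1 * b1), by
      refine Ideal.mem_span_pair.2 ⟨a1 * b2 + a2 * b1, a2 * b2, by ring⟩⟩
  | succ n ih =>
    rw [show n + 1 + 2 = (n + 2) + 1 by ring, pow_succ]
    refine Ideal.mul_le.2 fun a ha b hb => ?_
    obtain ⟨b1, b2, rfl⟩ := Ideal.mem_span_pair.1 hb
    obtain ⟨c, hc⟩ := (Ideal.mem_span_insert' _ _ _).1 (ih ha)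
    obtain ⟨d, e, hde⟩ := Ideal.mem_span_pair.1 hc
    have ha' : a = -c * (X ^ 2 * Y ^ n) + d * (X * Y ^ (n + 1)) + e * Y ^ (n + 2) := by
      linear_combination -hde
    have : a * (b1 * X + b2 * Y) = (-c * b2 + d * b1) * (X ^ 2 * Y ^ (n + 1)) +
        ((d * b2 + e * b1) * (X * Y ^ (n + 1 + 1)) + (e * b2) * Y ^ (n + 2 + 1)) := by
      rw [ha']
      linear_combination (-c * b1 * Y ^ n) * hX
    rw [this]
    exact (Ideal.mem_span_insert' _ _ _).2 ⟨-(-c * b2 + d * b1), by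
      refine Ideal.mem_span_pair.2 ⟨d * b2 + e * b1, e * b2, by ring⟩⟩

theorem pow_bot (hX : X ^ 3 = 0) {n : ℕ} (hY : Y ^ n = 0) {z : R}
    (hz : z ∈ (Ideal.span {X, Y}) ^ (n + 2)) : z = 0 := by
  have h := pow_le hX n hz
  rw [pow_succ Y n, pow_add Y n 2, hY] at h
  simpa using h

theorem pow_sub_mem {I : Ideal R} {v e : R} (hv : v ∈ I) (he : e ∈ I ^ 2) (n : ℕ) :
    (v + e) ^ n - v ^ n ∈ I ^ (n + 1) := by
  have hve : v + e ∈ I := Ideal.add_mem _ hv (Ideal.pow_le_self (by norm_num) he)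
  induction n with
  | zero => simp
  | succ n ih =>
    have : (v + e) ^ (n + 1) - v ^ (n + 1) = ((v + e) ^ n - v ^ n) * (v + e) + v ^ n * e := by ring
    rw [this]
    refine Ideal.add_mem _ ?_ ?_
    · rw [pow_succ]; exact Ideal.mul_mem_mul ih hve
    · rw [show n + 1 + 1 = n + 2 by ring, pow_add]
      exact Ideal.mul_mem_mul (Ideal.pow_mem_pow hv n) he

theorem lin_pow (hX : X ^ 3 = 0) (s r : R) (n : ℕ) :
    (s * X + r * Y) ^ (n + 1) * X = r ^ (n + 1) * Y ^ (n + 1) * X +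
      ((n + 1 : ℕ) : R) * s * r ^ n * (X ^ 2 * Y ^ n) := by
  induction n with
  | zero => push_cast; ring
  | succ n ih =>
    have : (s * X + r * Y) ^ (n + 1 + 1) * X = (s * X + r * Y) *
        ((s * X + r * Y) ^ (n + 1) * X) := by ring
    rw [this, ih]
    push_cast
    linear_combination ((n + 1 : R) * s ^ 2 * r ^ n * Y ^ n) * hX

/-- the value of the Engel word in terms of the leading terms -/
theorem key (hX : X ^ 3 = 0) {n : ℕ} (hY : Y ^ (n + 1) = 0) {x y : Aff R} {s r s' r' : ℤ}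
    (h : P X Y x s r) (h' : P X Y y s' r') :
    ((y.q : R) - 1) ^ (n + 1) * (((x.q : R) - 1) * y.m - ((y.q : R) - 1) * x.m) =
      (((n + 1 : ℕ) * (s' * r' ^ n * (s * r' - r * s')) : ℤ) : R) * (X ^ 2 * Y ^ n) := by
  set I := Ideal.span {X, Y} with hI
  have hv : (s' : R) * X + (r' : R) * Y ∈ I := lin_mem _ _
  have hv0 : (s : R) * X + (r : R) * Y ∈ I := lin_mem _ _
  have h1 := pow_sub_mem hv h'.1 (n + 1)
  rw [show (s' : R) * X + (r' : R) * Y + ((y.q : R) - 1 - ((s' : R) * X + (r' : R) * Y)) =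
    (y.q : R) - 1 by ring] at h1
  set D : R := ((s * r' - r * s' : ℤ) : R) with hD
  have h2 : (((x.q : R) - 1) * y.m - ((y.q : R) - 1) * x.m) - D * X ∈ I ^ 2 := by
    have e : (((x.q : R) - 1) * y.m - ((y.q : R) - 1) * x.m) - D * X =
        y.m * ((x.q : R) - 1 - ((s : R) * X + (r : R) * Y)) +
        ((s : R) * X + (r : R) * Y) * (y.m - r') -
        (x.m * ((y.q : R) - 1 - ((s' : R) * X + (r' : R) * Y)) +
        ((s' : R) * X + (r' : R) * Y) * (x.m - r)) := by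
      rw [hD]; push_cast; ring
    rw [e]
    refine Ideal.sub_mem _ (Ideal.add_mem _ (Ideal.mul_mem_left _ _ h.1) ?_)
      (Ideal.add_mem _ (Ideal.mul_mem_left _ _ h'.1) ?_)
    · rw [pow_two]; exact Ideal.mul_mem_mul hv0 h'.2
    · rw [pow_two]; exact Ideal.mul_mem_mul hv h.2
  set W : R := ((x.q : R) - 1) * y.m - ((y.q : R) - 1) * x.m with hW
  have hDX : D * X ∈ I := Ideal.mul_mem_left _ _ X_mem
  have hWI : W ∈ I := by
    have : W = (W - D * X) + D * X := by ring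
    rw [this]
    exact Ideal.add_mem _ (Ideal.pow_le_self (by norm_num) h2) hDX
  have h3 : ((y.q : R) - 1) ^ (n + 1) * W - ((s' : R) * X + (r' : R) * Y) ^ (n + 1) * (D * X) ∈
      I ^ (n + 1 + 2) := by
    have e : ((y.q : R) - 1) ^ (n + 1) * W - ((s' : R) * X + (r' : R) * Y) ^ (n + 1) * (D * X) =
        (((y.q : R) - 1) ^ (n + 1) - ((s' : R) * X + (r' : R) * Y) ^ (n + 1)) * W +
        ((s' : R) * X + (r' : R) * Y) ^ (n + 1) * (W - D * X) := by ring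
    rw [e]
    refine Ideal.add_mem _ ?_ ?_
    · rw [show n + 1 + 2 = (n + 1 + 1) + 1 by ring, pow_succ]
      exact Ideal.mul_mem_mul h1 hWI
    · rw [pow_add]
      exact Ideal.mul_mem_mul (Ideal.pow_mem_pow hv _) h2
  have h4 := pow_bot hX hY h3
  rw [sub_eq_zero] at h4
  rw [h4]
  have h5 := lin_pow (Y := Y) hX (s' : R) (r' : R) n
  rw [hY] at h5
  have e : ((s' : R) * X + (r' : R) * Y) ^ (n + 1) * (D * X) =
    D * (((s' : R) * X + (r' : R) * Y) ^ (n + 1) * X) := by ring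
  rw [e, h5, hD]
  push_cast
  ring

end Pool.Agent.KS6_18.Eng
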