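import Pool.Agent.KS6_18.Eng.Aff

set_option autoImplicit false

namespace Pool.Agent.KS6_18.Eng

open Polynomial

theorem adj_aux {A : Type} [CommRing A] (n : ℕ) (b : A)
    (h : AdjoinRoot.of (X ^ (n + 1) : A[X]) b * AdjoinRoot.root (X ^ (n + 1) : A[X]) ^ n = 0) :
    b = 0 := by
  have h1 : AdjoinRoot.mk (X ^ (n + 1) : A[X]) (C b * X ^ n) = 0 := by
    rw [map_mul, map_pow, AdjoinRoot.mk_C, AdjoinRoot.mk_X]
    exact h
  rw [AdjoinRoot.mk_eq_zero, X_pow_dvd_iff] at h1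
  simpa using h1 n (Nat.lt_succ_self n)

theorem root_pow {A : Type} [CommRing A] (n : ℕ) :
    AdjoinRoot.root (X ^ (n + 1) : A[X]) ^ (n + 1) = 0 := by
  rw [← AdjoinRoot.mk_X, ← map_pow]
  exact AdjoinRoot.mk_self

/-- A commutative ring with `x ^ 3 = 0`, `y ^ (n + 1) = 0` and `x ^ 2 * y ^ n` of additive order
`N`. -/
theorem exists_ring (n N : ℕ) : ∃ (R : Type) (_ : CommRing R) (x y : R), x ^ 3 = 0 ∧
    y ^ (n + 1) = 0 ∧ ∀ c : ℤ, (c : R) * (x ^ 2 * y ^ n) = 0 ↔ (N : ℤ) ∣ c := by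
  let A := ZMod N
  let B := AdjoinRoot (X ^ (2 + 1) : A[X])
  let R := AdjoinRoot (X ^ (n + 1) : B[X])
  refine ⟨R, inferInstance, AdjoinRoot.of _ (AdjoinRoot.root _), AdjoinRoot.root _, ?_,
    root_pow n, fun c => ⟨fun h => ?_, fun h => ?_⟩⟩
  · rw [← map_pow, show (3 : ℕ) = 2 + 1 by norm_num, root_pow, map_zero]
  · have h1 : AdjoinRoot.of (X ^ (n + 1) : B[X]) ((c : B) * AdjoinRoot.root (X ^ (2 + 1) : A[X]) ^ 2)
        * AdjoinRoot.root (X ^ (n + 1) : B[X]) ^ n = 0 := by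
      rw [map_mul, map_intCast, map_pow, mul_assoc]
      exact h
    have h2 := adj_aux n _ h1
    have h3 : AdjoinRoot.of (X ^ (2 + 1) : A[X]) (c : A) *
        AdjoinRoot.root (X ^ (2 + 1) : A[X]) ^ 2 = 0 := by
      rw [map_intCast]; exact h2
    have h4 := adj_aux 2 _ h3
    exact (ZMod.intCast_zmod_eq_zero_iff_dvd c N).1 h4
  · have h1 : (c : A) = 0 := (ZMod.intCast_zmod_eq_zero_iff_dvd c N).2 h
    have h2 : (c : R) = AdjoinRoot.of (X ^ (n + 1) : B[X]) (AdjoinRoot.of (X ^ (2 + 1) : A[X])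
        (c : A)) := by
      rw [map_intCast, map_intCast]
    rw [h2, h1, map_zero, map_zero, zero_mul]

variable {R : Type} [CommRing R]

/-- the group: sequences of affine maps with leading terms of one parity -/
def GG (x y : R) : Subgroup (ℕ → Aff R) where
  carrier := {g | ∃ p : ZMod 2, ∀ i, ∃ s r : ℤ, P x y (g i) s r ∧ ((s + r : ℤ) : ZMod 2) = p}
  mul_mem' := by
    rintro g h ⟨p, hp⟩ ⟨p', hp'⟩
    refine ⟨p + p', fun i => ?_⟩
    obtain ⟨s, r, h1, h2⟩ := hp i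
    obtain ⟨s', r', h1', h2'⟩ := hp' i
    refine ⟨s + s', r + r', h1.mul h1', ?_⟩
    rw [← h2, ← h2']
    push_cast; ring
  one_mem' := ⟨0, fun i => ⟨0, 0, P.one, by simp⟩⟩
  inv_mem' := by
    rintro g ⟨p, hp⟩
    refine ⟨-p, fun i => ?_⟩
    obtain ⟨s, r, h1, h2⟩ := hp i
    refine ⟨-s, -r, h1.inv, ?_⟩
    rw [← h2]
    push_cast; ring

variable {x y : R}

theorem ev (a b : GG x y) (i k : ℕ) : ((fun z => z⁻¹ * b⁻¹ * z * b)^[k] a).1 i =
    (fun z => z⁻¹ * (b.1 i)⁻¹ * z * b.1 i)^[k] (a.1 i) := by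
  induction k with
  | zero => rfl
  | succ k ih => rw [Function.iterate_succ_apply', Function.iterate_succ_apply', ← ih]; rfl

theorem parity {n : ℕ} (hn : 1 ≤ n) {s r s' r' : ℤ}
    (h : ((s + r : ℤ) : ZMod 2) = ((s' + r' : ℤ) : ZMod 2)) :
    Even (s' * r' ^ n * (s * r' - r * s')) := by
  have h0 : (2 : ℤ) ∣ (s' + r') - (s + r) := by
    have := (ZMod.intCast_eq_intCast_iff_dvd_sub (s + r) (s' + r') 2).1 h
    exact_mod_cast this
  rcases Int.even_or_odd s' with hs | hs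
  · exact (hs.mul_right _).mul_right _
  · rcases Int.even_or_odd r' with hr | hr
    · refine Even.mul_right (Even.mul_left ?_ _) _
      exact hr.pow_of_ne_zero (by omega)
    · refine Even.mul_left ?_ _
      obtain ⟨a, ha⟩ := hs
      obtain ⟨b, hb⟩ := hr
      obtain ⟨c, hc⟩ := h0
      refine ⟨s * b - r * a + (a + b + 1) - c - r, ?_⟩
      have hs : s = 2 * a + 1 + (2 * b + 1) - 2 * c - r := by
        rw [← hc, ha, hb]; ring
      rw [ha, hb, hs]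
      ring

theorem good (hX : x ^ 3 = 0) {n : ℕ} (hn : 1 ≤ n) (hY : y ^ (n + 1) = 0)
    (hc : ∀ c : ℤ, (c : R) * (x ^ 2 * y ^ n) = 0 ↔ ((2 * (n + 1) : ℕ) : ℤ) ∣ c)
    {a b : Aff R} {s r s' r' : ℤ} (h : P x y a s r) (h' : P x y b s' r')
    (hp : ((s + r : ℤ) : ZMod 2) = ((s' + r' : ℤ) : ZMod 2)) :
    (fun z => z⁻¹ * b⁻¹ * z * b)^[n + 2] a = 1 := by
  rw [show n + 2 = (n + 1) + 1 by ring, Aff.eng_eq_one_iff, key hX hY h h', hc]
  obtain ⟨t, ht⟩ := parity hn hp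
  refine ⟨t, ?_⟩
  rw [ht]; push_cast; ring

theorem star (hX : x ^ 3 = 0) {n : ℕ} (hn : 1 ≤ n) (hY : y ^ (n + 1) = 0)
    (hc : ∀ c : ℤ, (c : R) * (x ^ 2 * y ^ n) = 0 ↔ ((2 * (n + 1) : ℕ) : ℤ) ∣ c)
    (S : Set (GG x y)) (hS : S.Infinite) : ∃ a ∈ S, ∃ b ∈ S, a ≠ b ∧
      (fun z => z⁻¹ * b⁻¹ * z * b)^[n + 2] a = 1 ∧
      (fun z => z⁻¹ * a⁻¹ * z * a)^[n + 2] b = 1 := by
  have hp : ∀ g : GG x y, ∃ p : ZMod 2, ∀ i, ∃ s r : ℤ, P x y (g.1 i) s r ∧
    ((s + r : ℤ) : ZMod 2) = p := fun g => g.2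
  choose p hp using hp
  obtain ⟨a, ha, b, hb, hab, h⟩ := hS.exists_ne_map_eq_of_mapsTo
      (f := p) (t := Set.univ) (fun _ _ => trivial) Set.finite_univ
  refine ⟨a, ha, b, hb, hab, ?_, ?_⟩
  · refine Subtype.ext (funext fun i => ?_)
    rw [ev]
    obtain ⟨s, r, h1, h2⟩ := hp a i
    obtain ⟨s', r', h1', h2'⟩ := hp b i
    exact good hX hn hY hc h1 h1' (by rw [h2, h2', h])
  · refine Subtype.ext (funext fun i => ?_)
    rw [ev]
    obtain ⟨s, r, h1, h2⟩ := hp a i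
    obtain ⟨s', r', h1', h2'⟩ := hp b i
    exact good hX hn hY hc h1' h1 (by rw [h2, h2', h])

theorem circ (hX : x ^ 3 = 0) {n : ℕ} (hY : y ^ (n + 1) = 0)
    (hc : ∀ c : ℤ, (c : R) * (x ^ 2 * y ^ n) = 0 ↔ ((2 * (n + 1) : ℕ) : ℤ) ∣ c) :
    ∃ S : Set (GG x y), S.Infinite ∧ ∀ g ∈ S, ∀ h ∈ S, g ≠ h →
      ∃ a ∈ Subgroup.closure ({g, h} : Set (GG x y)),
      ∃ b ∈ Subgroup.closure ({g, h} : Set (GG x y)),
        (fun z => z⁻¹ * b⁻¹ * z * b)^[n + 2] a ≠ 1 := by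
  have hxu : IsUnit (1 + x) := IsNilpotent.isUnit_one_add ⟨3, hX⟩
  have hyu : IsUnit (1 + y) := IsNilpotent.isUnit_one_add ⟨_, hY⟩
  let a : Aff R := ⟨hxu.unit, 0⟩
  let b : Aff R := ⟨hyu.unit, 1⟩
  have ha : P x y a 1 0 := by
    constructor <;> simp [a]
  have hb : P x y b 0 1 := by
    constructor <;> simp [b]
  have hne : ¬ ((2 * (n + 1) : ℕ) : ℤ) ∣ ((n + 1 : ℕ) : ℤ) := by
    intro h
    have h1 := Int.natCast_dvd_natCast.1 h
    have := Nat.le_of_dvd (by omega) h1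
    omega
  have hbad : (fun z => z⁻¹ * (b * a)⁻¹ * z * (b * a))^[n + 2] a ≠ 1 := by
    intro h
    rw [show n + 2 = (n + 1) + 1 by ring, Aff.eng_eq_one_iff, key hX hY ha (hb.mul ha), hc] at h
    apply hne
    simpa using h
  let g : ℕ → GG x y := fun j => ⟨fun i => if i = j then b else a, 1, fun i => by
    dsimp only
    split_ifs
    · exact ⟨0, 1, hb, by simp⟩
    · exact ⟨1, 0, ha, by simp⟩⟩
  have hg1 : ∀ j, (g j).1 j = b := fun j => if_pos rfl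
  have hg2 : ∀ i j, i ≠ j → (g j).1 i = a := fun i j h => if_neg h
  have hab : a ≠ b := by
    intro h
    have h1 : (0 : R) = 1 := congrArg Aff.m h
    apply hne
    rw [← hc]
    have : ∀ z : R, z = 0 := fun z => by
      rw [← mul_one z, ← h1, mul_zero]
    exact this _
  have hinj : Function.Injective g := by
    intro i j hij
    by_contra hne
    have := congrFun (congrArg Subtype.val hij) i
    rw [hg1, hg2 i j hne] at this
    exact hab this.symm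
  refine ⟨Set.range g, Set.infinite_range_of_injective hinj, ?_⟩
  rintro _ ⟨i, rfl⟩ _ ⟨j, rfl⟩ hne
  have hij : i ≠ j := fun e => hne (by rw [e])
  have h1 : g i ∈ Subgroup.closure ({g i, g j} : Set (GG x y)) := Subgroup.subset_closure (by simp)
  have h2 : g j ∈ Subgroup.closure ({g i, g j} : Set (GG x y)) := Subgroup.subset_closure (by simp)
  refine ⟨g j, h2, g i * g j, mul_mem h1 h2, fun h => hbad ?_⟩
  have h3 := congrFun (congrArg Subtype.val h) i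
  rw [ev] at h3
  have e2 : (g i * g j).1 i = b * a := by
    show (g i).1 i * (g j).1 i = b * a
    rw [hg1, hg2 i j hij]
  rw [e2, hg2 i j hij] at h3
  exact h3

/-- the central series -/
def HH (x y : R) (m : ℕ) : Subgroup (GG x y) where
  carrier := {g | 1 ≤ m → ∀ i, (g.1 i).q = 1 ∧ (g.1 i).m ∈ (Ideal.span {x, y}) ^ m}
  mul_mem' := by
    intro g h hg hh h1 i
    obtain ⟨a1, a2⟩ := hg h1 i
    obtain ⟨b1, b2⟩ := hh h1 i
    constructor
    · show (g.1 i).q * (h.1 i).q = 1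
      rw [a1, b1, one_mul]
    · show (g.1 i).m + (g.1 i).q * (h.1 i).m ∈ _
      rw [a1]
      simpa using Ideal.add_mem _ a2 b2
  one_mem' := by
    intro _ i
    exact ⟨rfl, Ideal.zero_mem _⟩
  inv_mem' := by
    intro g hg h1 i
    obtain ⟨a1, a2⟩ := hg h1 i
    constructor
    · show (g.1 i).q⁻¹ = 1
      rw [a1, inv_one]
    · show -((((g.1 i).q⁻¹ : Rˣ) : R) * (g.1 i).m) ∈ _
      rw [a1]
      simpa using a2

theorem comm' (a b : Aff R) : a * b * a⁻¹ * b⁻¹ =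
    ⟨1, ((a.q : R) - 1) * b.m - ((b.q : R) - 1) * a.m⟩ := by
  have h1 : ((a.q⁻¹ : Rˣ) : R) * (a.q : R) = 1 := by simp
  have h2 : ((b.q⁻¹ : Rˣ) : R) * (b.q : R) = 1 := by simp
  ext
  · simp only [Aff.mul_def, Aff.inv_def]
    have : a.q * b.q * a.q⁻¹ * b.q⁻¹ = 1 := by
      rw [mul_comm a.q b.q, mul_assoc b.q, mul_inv_cancel, mul_one, mul_inv_cancel]
    rw [this]
  · simp only [Aff.mul_def, Aff.inv_def, Units.val_mul]
    linear_combination (-(b.q : R) * a.m - ((b.q⁻¹ : Rˣ) : R) * (b.q : R) * b.m) * h1 -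
      b.m * h2

theorem desc (x y : R) : Subgroup.IsDescendingCentralSeries (HH x y) := by
  constructor
  · rw [eq_top_iff]
    intro g _ h1
    exact absurd h1 (by norm_num)
  · intro g m hg h _ i
    have e : (g * h * g⁻¹ * h⁻¹).1 i = (g.1 i) * (h.1 i) * (g.1 i)⁻¹ * (h.1 i)⁻¹ := rfl
    rw [commutatorElement_def, e, comm']
    refine ⟨rfl, ?_⟩
    obtain ⟨p, hp⟩ := g.2
    obtain ⟨p', hp'⟩ := h.2
    obtain ⟨s, r, h1, -⟩ := hp i
    obtain ⟨s', r', h1', -⟩ := hp' i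
    rcases Nat.eq_zero_or_pos m with rfl | hm
    · rw [zero_add, pow_one]
      exact Ideal.sub_mem _ (Ideal.mul_mem_right _ _ h1.q_mem) (Ideal.mul_mem_right _ _ h1'.q_mem)
    · obtain ⟨a1, a2⟩ := hg hm i
      rw [a1, Units.val_one, sub_self, zero_mul, zero_sub, Ideal.neg_mem_iff, pow_succ,
        mul_comm (((h.1 i).q : R) - 1)]
      exact Ideal.mul_mem_mul a2 h1'.q_mem

theorem bot (hX : x ^ 3 = 0) {n : ℕ} (hY : y ^ (n + 1) = 0) : HH x y (n + 3) = ⊥ := by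
  rw [eq_bot_iff]
  intro g hg
  rw [Subgroup.mem_bot]
  refine Subtype.ext (funext fun i => ?_)
  obtain ⟨a1, a2⟩ := hg (by omega) i
  have a3 := pow_bot (n := n + 1) hX hY (by rw [show n + 1 + 2 = n + 3 by ring]; exact a2)
  exact Aff.ext a1 a3

theorem eng_mem_lcs {G : Type} [Group G] (a b : G) (k : ℕ) :
    (fun z => z⁻¹ * b⁻¹ * z * b)^[k] a ∈ Subgroup.lowerCentralSeries (⊤ : Subgroup G) k := by
  induction k with
  | zero => simp
  | succ k ih =>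
    rw [Function.iterate_succ_apply', Subgroup.mem_lowerCentralSeries_succ_iff]
    refine Subgroup.subset_closure ⟨_, inv_mem ih, b⁻¹, Subgroup.mem_top _, ?_⟩
    simp [commutatorElement_def]

theorem nil (hX : x ^ 3 = 0) {n : ℕ} (hY : y ^ (n + 1) = 0)
    (hc : ∀ c : ℤ, (c : R) * (x ^ 2 * y ^ n) = 0 ↔ ((2 * (n + 1) : ℕ) : ℤ) ∣ c) :
    ∃ _ : Group.IsNilpotent (GG x y), Group.nilpotencyClass (GG x y) = n + 3 := by
  have h1 : Group.IsNilpotent (GG x y) :=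
    (Subgroup.nilpotent_iff_finite_descending_central_series _).2
      ⟨n + 3, HH x y, desc x y, bot hX hY⟩
  refine ⟨h1, le_antisymm ?_ ?_⟩
  · rw [← Subgroup.lowerCentralSeries_eq_bot_iff_nilpotencyClass_le, eq_bot_iff, ← bot hX hY]
    exact Subgroup.descending_central_series_ge_lower _ (desc x y) _
  · by_contra hlt
    push Not at hlt
    obtain ⟨S, hS, h2⟩ := circ hX hY hc
    obtain ⟨g, hg, h, hh, hne⟩ := hS.nontrivial
    obtain ⟨a, -, b, -, h3⟩ := h2 g hg h hh hne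
    apply h3
    have h4 := eng_mem_lcs a b (n + 2)
    have h5 : Subgroup.lowerCentralSeries (⊤ : Subgroup (GG x y)) (n + 2) = ⊥ := by
      rw [Subgroup.lowerCentralSeries_eq_bot_iff_nilpotencyClass_le]
      omega
    rw [h5, Subgroup.mem_bot] at h4
    exact h4

theorem metab (a b c d : GG x y) : (a⁻¹ * b⁻¹ * a * b) * (c⁻¹ * d⁻¹ * c * d) =
    (c⁻¹ * d⁻¹ * c * d) * (a⁻¹ * b⁻¹ * a * b) := by
  refine Subtype.ext (funext fun i => ?_)
  have e : ∀ u v : GG x y, (u⁻¹ * v⁻¹ * u * v).1 i =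
    (u.1 i)⁻¹ * (v.1 i)⁻¹ * (u.1 i) * (v.1 i) := fun _ _ => rfl
  show (a⁻¹ * b⁻¹ * a * b).1 i * (c⁻¹ * d⁻¹ * c * d).1 i =
    (c⁻¹ * d⁻¹ * c * d).1 i * (a⁻¹ * b⁻¹ * a * b).1 i
  rw [e, e, Aff.comm, Aff.comm]
  ext
  · rfl
  · simp only [Aff.mul_def, Units.val_one]; ring

end Pool.Agent.KS6_18.Eng
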